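import Pool.Agent.H43.BZ.Stm3

/-!
# LRATE: the rate of blow-up for the Landau equation
-/

set_option autoImplicit false

open MeasureTheory Metric Set Filter Topology
open scoped RealInnerProductSpace ENNReal
open Pool.Agent.H43.BZ

namespace Pool.Agent.H23.BZ

theorem kk_nonneg {d : ℕ} (γ s : ℝ) (v w : E d) : 0 ≤ kk γ s v w := by
  unfold kk
  positivity

theorem P_pos {d : ℕ} (w : E d) : 0 < P d w := by
  unfold P
  positivity

theorem P_le {d : ℕ} (w : E d) :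
    P d w ≤ 2 ^ (4 * (d + 3)) * ((1 + ‖w‖) ^ (d + 7))⁻¹ := by
  have h0 : 0 ≤ ‖w‖ := norm_nonneg w
  have h1 : (1 + ‖w‖) ^ 2 ≤ 2 * (1 + ‖w‖ ^ 2) := by nlinarith [sq_nonneg (1 - ‖w‖)]
  have h2 : ((1 + ‖w‖) ^ 2) ^ (4 * (d + 3)) ≤ (2 * (1 + ‖w‖ ^ 2)) ^ (4 * (d + 3)) :=
    pow_le_pow_left₀ (by positivity) h1 _
  have h3 : (1 + ‖w‖) ^ (d + 7) ≤ ((1 + ‖w‖) ^ 2) ^ (4 * (d + 3)) := by
    rw [← pow_mul]
    exact pow_le_pow_right₀ (by linarith) (by omega)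
  have h4 : (1 + ‖w‖) ^ (d + 7) ≤ 2 ^ (4 * (d + 3)) * (1 + ‖w‖ ^ 2) ^ (4 * (d + 3)) := by
    rw [← mul_pow]
    exact h3.trans h2
  unfold P
  rw [← div_eq_mul_inv, inv_eq_one_div, div_le_div_iff₀ (by positivity) (by positivity)]
  linarith

/-- the collision moment is bounded by the contact amplitude -/
theorem lam_le {d : ℕ} {γ C : ℝ}
    (hC : ∀ v : E d, Integrable (fun w : E d => kk γ 1 v w * ((1 + ‖w‖) ^ (d + 7))⁻¹) ∧
      ∫ w, kk γ 1 v w * ((1 + ‖w‖) ^ (d + 7))⁻¹ ≤ C) (f : ℝ → E d → E d → ℝ) (t N : ℝ)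
    (hf : ∀ x v, 0 ≤ f t x v) (hfN : ∀ x v, f t x v ≤ N * P d v) :
    Lam γ 1 f t ≤ 2 ^ (4 * (d + 3)) * max C 0 * N := by
  have hN : 0 ≤ N := by
    have h := (hf 0 0).trans (hfN 0 0)
    exact nonneg_of_mul_nonneg_left h (P_pos 0)
  unfold Lam
  refine ciSup_le fun q => ?_
  obtain ⟨hi, hle⟩ := hC q.2
  have h1 : ∫ w, f t q.1 w * kk γ 1 q.2 w ≤
      ∫ w, (N * 2 ^ (4 * (d + 3))) * (kk γ 1 q.2 w * ((1 + ‖w‖) ^ (d + 7))⁻¹) := by
    refine integral_mono_of_nonneg (Eventually.of_forall fun w => ?_) (hi.const_mul _)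
      (Eventually.of_forall fun w => ?_)
    · exact mul_nonneg (hf _ _) (kk_nonneg _ _ _ _)
    · have h2 : f t q.1 w ≤ N * (2 ^ (4 * (d + 3)) * ((1 + ‖w‖) ^ (d + 7))⁻¹) :=
        (hfN _ _).trans (mul_le_mul_of_nonneg_left (P_le w) hN)
      have h3 := mul_le_mul_of_nonneg_right h2 (kk_nonneg γ 1 q.2 w)
      show f t q.1 w * kk γ 1 q.2 w ≤
        (N * 2 ^ (4 * (d + 3))) * (kk γ 1 q.2 w * ((1 + ‖w‖) ^ (d + 7))⁻¹)
      calc f t q.1 w * kk γ 1 q.2 w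
          ≤ N * (2 ^ (4 * (d + 3)) * ((1 + ‖w‖) ^ (d + 7))⁻¹) * kk γ 1 q.2 w := h3
        _ = (N * 2 ^ (4 * (d + 3))) * (kk γ 1 q.2 w * ((1 + ‖w‖) ^ (d + 7))⁻¹) := by ring
  rw [integral_const_mul] at h1
  calc ∫ w, f t q.1 w * kk γ 1 q.2 w
      ≤ (N * 2 ^ (4 * (d + 3))) * ∫ w, kk γ 1 q.2 w * ((1 + ‖w‖) ^ (d + 7))⁻¹ := h1
    _ ≤ (N * 2 ^ (4 * (d + 3))) * max C 0 :=
        mul_le_mul_of_nonneg_left (hle.trans (le_max_left _ _)) (by positivity)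
    _ = 2 ^ (4 * (d + 3)) * max C 0 * N := by ring

/-- the shifted function is a solution -/
theorem shift_sol {d : ℕ} {γ T : ℝ} {f : ℝ → E d → E d → ℝ} (h : SolL d γ T f) {t₀ : ℝ}
    (ht₀ : t₀ ∈ Ico 0 T) : SolL d γ (T - t₀) (fun t => f (t₀ + t)) := by
  obtain ⟨h0, h1⟩ := ht₀
  have hI : ∀ t ∈ Ico 0 (T - t₀), t₀ + t ∈ Ico 0 T := fun t ht =>
    ⟨by linarith [ht.1], by linarith [ht.2]⟩
  have hO : ∀ t ∈ Ioo 0 (T - t₀), t₀ + t ∈ Ioo 0 T := fun t ht =>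
    ⟨by linarith [ht.1], by linarith [ht.2]⟩
  have hfun : ∀ v : E d, (fun p : ℝ × E d => f (t₀ + p.1) p.2 v) =
      fun p : ℝ × E d => (fun q : ℝ × E d => f q.1 q.2 v) (((t₀, 0) : ℝ × E d) + p) := by
    intro v
    funext p
    simp
  have hpt : ∀ (t : ℝ) (x : E d), ((t₀, 0) : ℝ × E d) + (t, x) = (t₀ + t, x) := by
    intro t x
    simp
  refine ⟨fun t ht => h.nonneg _ (hI t ht), ?_, fun t ht => h.periodic _ (hI t ht), ?_, ?_,
    fun t ht => h.smooth _ (hO t ht), ?_⟩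
  · have hc : ContinuousOn (fun p : ℝ × E d × E d => ((t₀ + p.1, p.2) : ℝ × E d × E d))
        (Ico 0 (T - t₀) ×ˢ univ) := by fun_prop
    exact h.cont.comp hc fun p hp => ⟨hI _ hp.1, mem_univ _⟩
  · intro T' hT' q
    obtain ⟨C, hC⟩ := h.decay (t₀ + T') (hI T' hT') q
    exact ⟨C, fun t ht x v => hC (t₀ + t) ⟨by linarith [ht.1], by linarith [ht.2]⟩ x v⟩
  · intro t ht x v
    have h2 := h.diff _ (hO t ht) x v
    rw [hfun v]
    rw [← hpt t x] at h2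
    exact (differentiableAt_comp_add_left ((t₀, 0) : ℝ × E d)).2 h2
  · intro t ht x v
    have h2 := h.eqn _ (hO t ht) x v
    have h3 : fderiv ℝ (fun p : ℝ × E d => (fun q : ℝ × E d => f q.1 q.2 v)
        (((t₀, 0) : ℝ × E d) + p)) (t, x) =
        fderiv ℝ (fun q : ℝ × E d => f q.1 q.2 v) (((t₀, 0) : ℝ × E d) + (t, x)) :=
      fderiv_comp_add_left (𝕜 := ℝ) (f := fun q : ℝ × E d => f q.1 q.2 v) (x := (t, x))
        ((t₀, 0) : ℝ × E d)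
    rw [hfun v, h3, hpt t x]
    exact h2

theorem LRATE (hf : S_LFIN) (hk : S_KKI1) (ho : S_ODE) : S_LRATE := by
  intro d hd γ hγ2 hγ0
  obtain ⟨C, hC0, hC⟩ := hf d hd
  obtain ⟨C1, hC1⟩ := hk d hd γ hγ2 hγ0
  set A : ℝ := 2 ^ (4 * (d + 3)) * max C1 0 with hA
  have hA0 : 0 ≤ A := by positivity
  refine ⟨1 / (2 * (C * A + 1)), by positivity, ?_⟩
  intro T f hT hsol t₀ ht₀ N hN hNT
  have hT' : 0 < T - t₀ := by linarith [ht₀.2]
  have hg := shift_sol hsol ht₀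
  obtain ⟨hcont, hnn, hbd⟩ := hC γ hγ2 hγ0 (T - t₀) (fun t => f (t₀ + t)) hT' hg
  have hNx : ∀ x v, f (t₀ + 0) x v ≤ N * P d v := by
    intro x v; rw [add_zero]; exact hN x v
  have hN0 : 0 ≤ N := by
    have h := (hsol.nonneg t₀ ht₀ 0 0).trans (hN 0 0)
    exact nonneg_of_mul_nonneg_left h (P_pos 0)
  have hb := hbd N hNx
  set L : ℝ → ℝ := Lam γ 1 (fun t => f (t₀ + t)) with hL
  have hlam : ∀ t ∈ Ico 0 (T - t₀), L t ≤ (A * N) * Real.exp (C * ∫ τ in (0:ℝ)..t, L τ) := by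
    intro t ht
    have h1 := lam_le (fun v => ⟨(hC1 v).1, (hC1 v).2.1⟩) (fun t => f (t₀ + t)) t
      (N * Real.exp (C * ∫ τ in (0:ℝ)..t, L τ)) (hg.nonneg t ht) (hb t ht)
    calc L t ≤ A * (N * Real.exp (C * ∫ τ in (0:ℝ)..t, L τ)) := h1
      _ = (A * N) * Real.exp (C * ∫ τ in (0:ℝ)..t, L τ) := by ring
  have hsmall : C * (A * N) * (T - t₀) ≤ 1 / 2 := by
    have h1 : C * (A * N) * (T - t₀) = (C * A) * (N * (T - t₀)) := by ring
    rw [h1]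
    have h2 : (C * A) * (N * (T - t₀)) ≤ (C * A) * (1 / (2 * (C * A + 1))) :=
      mul_le_mul_of_nonneg_left hNT (by positivity)
    refine h2.trans ?_
    rw [mul_one_div, div_le_div_iff₀ (by positivity) (by norm_num)]
    nlinarith [mul_nonneg hC0 hA0]
  have hexp := ho (T - t₀) C (A * N) L hT' hC0 (by positivity) hcont hnn hlam hsmall
  have hmain : ∀ t ∈ Ico t₀ T, ∀ x v, f t x v ≤ 2 * N * P d v := by
    intro t ht x v
    have ht' : t - t₀ ∈ Ico 0 (T - t₀) := ⟨by linarith [ht.1], by linarith [ht.2]⟩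
    have h1 := hb (t - t₀) ht' x v
    have h2 := hexp (t - t₀) ht'
    have e : t₀ + (t - t₀) = t := by ring
    simp only [e] at h1
    refine h1.trans ?_
    have h3 : N * Real.exp (C * ∫ τ in (0:ℝ)..(t - t₀), L τ) ≤ 2 * N := by nlinarith
    exact mul_le_mul_of_nonneg_right h3 (P_pos v).le
  refine ⟨hmain, ?_⟩
  obtain ⟨C0, hC0'⟩ := hsol.decay t₀ ht₀ (2 * (4 * (d + 3)))
  refine ⟨max C0 (2 * N), fun t ht x v => ?_⟩
  by_cases htt : t₀ ≤ t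
  · exact (hmain t ⟨htt, ht.2⟩ x v).trans
      (mul_le_mul_of_nonneg_right (le_max_right _ _) (P_pos v).le)
  · have h1 := hC0' t ⟨ht.1, (not_le.1 htt).le⟩ x v
    have h2 : (1 + ‖v‖ ^ 2) ^ (4 * (d + 3)) ≤ (1 + ‖v‖) ^ (2 * (4 * (d + 3))) := by
      have h6 : 1 + ‖v‖ ^ 2 ≤ (1 + ‖v‖) ^ 2 := by nlinarith [norm_nonneg v]
      rw [pow_mul (1 + ‖v‖) 2]
      exact pow_le_pow_left₀ (by positivity) h6 _
    have h3 := hsol.nonneg t ht x v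
    have h4 : (1 + ‖v‖ ^ 2) ^ (4 * (d + 3)) * f t x v ≤ C0 :=
      (mul_le_mul_of_nonneg_right h2 h3).trans h1
    have h5 : f t x v ≤ C0 * P d v := by
      unfold P
      rw [← div_eq_mul_inv, le_div_iff₀ (by positivity)]
      linarith
    exact h5.trans (mul_le_mul_of_nonneg_right (le_max_left _ _) (P_pos v).le)

end Pool.Agent.H23.BZ
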